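import Pool.Agent.H59.L.S8.H176.DT.Stm

set_option autoImplicit false

universe u

/-!
# The structure of extensions with an orthogonal basis
-/

namespace Pool.Agent.Y925.DT

open Pool.Agent.W418.LU2 Pool.Agent.H176.DT IsLocalRing

section residue

variable {F : Type u} [Field F] (V : ValuationSubring F)

open scoped Classical in
/-- the residue -/
noncomputable def rs (z : F) : ResidueField V :=
  if h : z ∈ V then residue V ⟨z, h⟩ else 0

theorem rs_mem {z : F} (h : z ∈ V) : rs V z = residue V ⟨z, h⟩ := dif_pos h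

theorem rs_add {z w : F} (hz : z ∈ V) (hw : w ∈ V) : rs V (z + w) = rs V z + rs V w := by
  rw [rs_mem V hz, rs_mem V hw, rs_mem V (V.add_mem _ _ hz hw), ← map_add]
  rfl

theorem rs_mul {z w : F} (hz : z ∈ V) (hw : w ∈ V) : rs V (z * w) = rs V z * rs V w := by
  rw [rs_mem V hz, rs_mem V hw, rs_mem V (V.mul_mem _ _ hz hw), ← map_mul]
  rfl

theorem rs_neg {z : F} (hz : z ∈ V) : rs V (-z) = -rs V z := by
  rw [rs_mem V hz, rs_mem V (V.neg_mem _ hz), ← map_neg]
  rfl

theorem rs_one : rs V 1 = 1 := by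
  rw [rs_mem V V.one_mem]
  exact map_one _

theorem rs_zero : rs V 0 = 0 := by
  rw [rs_mem V V.zero_mem]
  exact map_zero _

theorem rs_sub {z w : F} (hz : z ∈ V) (hw : w ∈ V) : rs V (z - w) = rs V z - rs V w := by
  rw [sub_eq_add_neg, rs_add V hz (V.neg_mem _ hw), rs_neg V hw, sub_eq_add_neg]

theorem rs_pow {z : F} (hz : z ∈ V) (n : ℕ) : rs V (z ^ n) = rs V z ^ n := by
  induction n with
  | zero => rw [pow_zero, pow_zero, rs_one]
  | succ n ih => rw [pow_succ, pow_succ, rs_mul V (pow_mem hz n) hz, ih]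

theorem rs_sum {ι : Type*} (s : Finset ι) (f : ι → F) (h : ∀ i ∈ s, f i ∈ V) :
    rs V (∑ i ∈ s, f i) = ∑ i ∈ s, rs V (f i) := by
  classical
  induction s using Finset.induction_on with
  | empty => rw [Finset.sum_empty, Finset.sum_empty, rs_zero]
  | insert a s ha ih =>
    rw [Finset.sum_insert ha, Finset.sum_insert ha, rs_add V (h a (Finset.mem_insert_self a s))
      (sum_mem fun i hi => h i (Finset.mem_insert_of_mem hi)),
      ih fun i hi => h i (Finset.mem_insert_of_mem hi)]

theorem rs_prod {ι : Type*} (s : Finset ι) (f : ι → F) (h : ∀ i ∈ s, f i ∈ V) :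
    rs V (∏ i ∈ s, f i) = ∏ i ∈ s, rs V (f i) := by
  classical
  induction s using Finset.induction_on with
  | empty => rw [Finset.prod_empty, Finset.prod_empty, rs_one]
  | insert a s ha ih =>
    rw [Finset.prod_insert ha, Finset.prod_insert ha, rs_mul V (h a (Finset.mem_insert_self a s))
      (prod_mem fun i hi => h i (Finset.mem_insert_of_mem hi)),
      ih fun i hi => h i (Finset.mem_insert_of_mem hi)]

theorem rs_eq_zero {z : F} (hz : z ∈ V) : rs V z = 0 ↔ V.valuation z < 1 := by
  rw [rs_mem V hz, residue_eq_zero_iff]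
  exact V.valuation_lt_one_iff ⟨z, hz⟩

theorem rs_inv {z : F} (h0 : z ≠ 0) (hz : z ∈ V) (hz' : z⁻¹ ∈ V) : rs V z⁻¹ = (rs V z)⁻¹ := by
  refine eq_inv_of_mul_eq_one_left ?_
  rw [← rs_mul V hz' hz, inv_mul_cancel₀ h0, rs_one]

theorem mem_of_val {z : F} (h : V.valuation z ≤ 1) : z ∈ V := (V.valuation_le_one_iff z).1 h

theorem val_le {z : F} (h : z ∈ V) : V.valuation z ≤ 1 := (V.valuation_le_one_iff z).2 h

theorem val_one_of_rs {z : F} (h : z ∈ V) (h' : rs V z ≠ 0) : V.valuation z = 1 := by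
  refine le_antisymm (val_le V h) (not_lt.1 fun h1 => h' ((rs_eq_zero V h).2 h1))

theorem val_sum_le {ι : Type*} (s : Finset ι) (f : ι → F) (g : V.ValueGroup)
    (h : ∀ i ∈ s, V.valuation (f i) ≤ g) : V.valuation (∑ i ∈ s, f i) ≤ g :=
  V.valuation.map_sum_le h

end residue

section basefield

variable (E : Type u) {F : Type u} [Field E] [Field F] [Algebra E F] (V : ValuationSubring F)

/-- the residue field of `E` -/
noncomputable def kk : Subfield (ResidueField V) where
  carrier := {x | ∃ e : E, algebraMap E F e ∈ V ∧ rs V (algebraMap E F e) = x}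
  mul_mem' := by
    rintro _ _ ⟨e, he, rfl⟩ ⟨f, hf, rfl⟩
    exact ⟨e * f, by rw [map_mul]; exact V.mul_mem _ _ he hf, by rw [map_mul, rs_mul V he hf]⟩
  one_mem' := ⟨1, by rw [map_one]; exact V.one_mem, by rw [map_one, rs_one]⟩
  add_mem' := by
    rintro _ _ ⟨e, he, rfl⟩ ⟨f, hf, rfl⟩
    exact ⟨e + f, by rw [map_add]; exact V.add_mem _ _ he hf, by rw [map_add, rs_add V he hf]⟩
  zero_mem' := ⟨0, by rw [map_zero]; exact V.zero_mem, by rw [map_zero, rs_zero]⟩
  neg_mem' := by
    rintro _ ⟨e, he, rfl⟩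
    exact ⟨-e, by rw [map_neg]; exact V.neg_mem _ he, by rw [map_neg, rs_neg V he]⟩
  inv_mem' := by
    rintro _ ⟨e, he, rfl⟩
    by_cases h : rs V (algebraMap E F e) = 0
    · rw [h, inv_zero]
      exact ⟨0, by rw [map_zero]; exact V.zero_mem, by rw [map_zero, rs_zero]⟩
    · have h1 := val_one_of_rs V he h
      have h0 : algebraMap E F e ≠ 0 := by
        intro h0
        rw [h0, map_zero] at h1
        exact zero_ne_one h1
      have h2 : (algebraMap E F e)⁻¹ ∈ V := by
        apply mem_of_val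
        rw [map_inv₀, h1, inv_one]
      exact ⟨e⁻¹, by rw [map_inv₀]; exact h2, by rw [map_inv₀, rs_inv V h0 he h2]⟩

open scoped Classical in
/-- a section of the residue map -/
noncomputable def sc (x : kk E V) : E := if h : x = 0 then 0 else Classical.choose x.2

theorem sc_zero : sc E V 0 = 0 := dif_pos rfl

theorem sc_spec (x : kk E V) : algebraMap E F (sc E V x) ∈ V ∧
    rs V (algebraMap E F (sc E V x)) = x := by
  unfold sc
  split_ifs with h
  · rw [map_zero, rs_zero, h]
    exact ⟨V.zero_mem, rfl⟩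
  · exact Classical.choose_spec x.2

theorem mem_kk {e : E} (he : algebraMap E F e ∈ V) : rs V (algebraMap E F e) ∈ kk E V :=
  ⟨e, he, rfl⟩

/-- lifts of polynomials -/
noncomputable def lift {r : ℕ} (h : MvPolynomial (Fin r) (kk E V)) : MvPolynomial (Fin r) E :=
  ∑ m ∈ h.support, MvPolynomial.monomial m (sc E V (h.coeff m))

theorem coeff_lift {r : ℕ} (h : MvPolynomial (Fin r) (kk E V)) (m : Fin r →₀ ℕ) :
    (lift E V h).coeff m = sc E V (h.coeff m) := by
  classical
  unfold lift
  rw [MvPolynomial.coeff_sum]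
  simp only [MvPolynomial.coeff_monomial]
  rw [Finset.sum_ite_eq']
  split_ifs with h1
  · rfl
  · rw [MvPolynomial.notMem_support_iff.1 h1, sc_zero]

theorem lift_supported {r : ℕ} {h : MvPolynomial (Fin r) (kk E V)} {s : Set (Fin r)}
    (hs : h ∈ MvPolynomial.supported (kk E V) s) : lift E V h ∈ MvPolynomial.supported E s := by
  unfold lift
  refine Subalgebra.sum_mem _ fun m hm => ?_
  rw [MvPolynomial.monomial_eq]
  refine Subalgebra.mul_mem _ (Subalgebra.algebraMap_mem _ _) ?_
  rw [Finsupp.prod]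
  refine Subalgebra.prod_mem _ fun i hi => Subalgebra.pow_mem _ ?_ _
  rw [MvPolynomial.X_mem_supported]
  rw [MvPolynomial.mem_supported] at hs
  exact hs ((MvPolynomial.mem_vars_iff_mem_support i).2 ⟨m, hm, hi⟩)

theorem aeval_lift {r : ℕ} (h : MvPolynomial (Fin r) (kk E V)) (b : Fin r → F)
    (hb : ∀ i, b i ∈ V) : MvPolynomial.aeval b (lift E V h) ∈ V ∧
      rs V (MvPolynomial.aeval b (lift E V h)) =
        MvPolynomial.aeval (fun i => rs V (b i)) h := by
  have e1 : MvPolynomial.aeval b (lift E V h) =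
      ∑ m ∈ h.support, algebraMap E F (sc E V (h.coeff m)) * ∏ i, b i ^ m i := by
    unfold lift
    rw [map_sum]
    refine Finset.sum_congr rfl fun m _ => ?_
    rw [MvPolynomial.aeval_monomial, Finsupp.prod_fintype _ _ fun i => pow_zero _]
  have hm : ∀ m ∈ h.support,
      algebraMap E F (sc E V (h.coeff m)) * ∏ i, b i ^ m i ∈ V := fun m _ =>
    V.mul_mem _ _ (sc_spec E V _).1 (prod_mem fun i _ => pow_mem (hb i) _)
  rw [e1]
  refine ⟨sum_mem hm, ?_⟩
  rw [rs_sum V _ _ hm, MvPolynomial.aeval_def, MvPolynomial.eval₂_eq']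
  refine Finset.sum_congr rfl fun m _ => ?_
  rw [rs_mul V (sc_spec E V _).1 (prod_mem fun i _ => pow_mem (hb i) _), (sc_spec E V _).2,
    rs_prod V _ _ fun i _ => pow_mem (hb i) _]
  congr 1
  exact Finset.prod_congr rfl fun i _ => rs_pow V (hb i) _

end basefield

section values

variable (E : Type u) {F : Type u} [Field E] [Field F] [Algebra E F] (V : ValuationSubring F)

/-- the elements with the value of an element of `E` -/
def HH : Subgroup Fˣ where
  carrier := {u | ∃ a : E, a ≠ 0 ∧ V.valuation (u : F) = V.valuation (algebraMap E F a)}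
  mul_mem' := by
    rintro u w ⟨a, ha, h⟩ ⟨b, hb, h'⟩
    exact ⟨a * b, mul_ne_zero ha hb, by rw [Units.val_mul, map_mul, h, h', map_mul, map_mul]⟩
  one_mem' := ⟨1, one_ne_zero, by rw [Units.val_one, map_one, map_one, map_one]⟩
  inv_mem' := by
    rintro u ⟨a, ha, h⟩
    exact ⟨a⁻¹, inv_ne_zero ha, by rw [Units.val_inv_eq_inv_val, map_inv₀, h, map_inv₀, map_inv₀]⟩

variable {E}

theorem exists_class {n : ℕ} {β : Fin n → F} (hβ : Orth (E := E) V β) {z : F} (hz : z ≠ 0) :
    ∃ (c : E) (j : Fin n), c ≠ 0 ∧ V.valuation z = V.valuation (algebraMap E F c * β j) := by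
  obtain ⟨c, hc⟩ := hβ.2.1 z
  by_contra hcon
  push Not at hcon
  have h1 : ∀ j ∈ Finset.univ, V.valuation (algebraMap E F (c j) * β j) < V.valuation z := by
    intro j _
    have h2 := hβ.2.2 c j
    rw [← hc] at h2
    refine lt_of_le_of_ne h2 ?_
    intro h3
    by_cases h4 : c j = 0
    · rw [h4, map_zero, zero_mul, map_zero] at h3
      exact hz ((map_eq_zero _).1 h3.symm)
    · exact hcon (c j) j h4 h3.symm
  have h2 := V.valuation.map_sum_lt (g := V.valuation z) ((map_ne_zero _).2 hz) h1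
  rw [← hc] at h2
  exact lt_irrefl _ h2

theorem torsion {n : ℕ} {β : Fin n → F} (hβ : Orth (E := E) V β) (i : Fin n) :
    ∃ N : ℕ, 0 < N ∧ (Units.mk0 (β i) (hβ.1 i)) ^ N ∈ HH E V := by
  choose c j hc hv using fun k : ℕ => exists_class V hβ (z := β i ^ k) (pow_ne_zero k (hβ.1 i))
  obtain ⟨k, l, hkl, hj⟩ : ∃ k l : ℕ, k < l ∧ j k = j l := by
    obtain ⟨x, y, hxy, h⟩ := Finite.exists_ne_map_eq_of_infinite j
    rcases lt_or_gt_of_ne hxy with h1 | h1
    exacts [⟨x, y, h1, h⟩, ⟨y, x, h1, h.symm⟩]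
  refine ⟨l - k, by omega, c l * (c k)⁻¹, mul_ne_zero (hc l) (inv_ne_zero (hc k)), ?_⟩
  have h1 := hv k
  have h2 := hv l
  have hβ0 : V.valuation (β (j k)) ≠ 0 := (map_ne_zero _).2 (hβ.1 _)
  have hck : V.valuation (algebraMap E F (c k)) ≠ 0 :=
    (map_ne_zero _).2 ((map_ne_zero _).2 (hc k))
  have h3 : V.valuation (β i ^ l) = V.valuation (β i ^ (l - k)) * V.valuation (β i ^ k) := by
    rw [← map_mul, ← pow_add, Nat.sub_add_cancel hkl.le]
  rw [← hj] at h2
  rw [h3, h1, map_mul, map_mul] at h2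
  rw [Units.val_pow_eq_pow_val, Units.val_mk0, map_mul, map_inv₀, map_mul, map_inv₀,
    eq_mul_inv_iff_mul_eq₀ hck]
  rw [← mul_assoc] at h2
  exact mul_right_cancel₀ hβ0 h2

theorem mem_sup_iff {q : ℕ} (t : Fin q → Fˣ) (i : Fin q) (u : Fˣ) :
    u ∈ HH E V ⊔ Subgroup.closure {z | ∃ j, j < i ∧ t j = z} ↔
      ∃ (a : E) (m : Fin q → ℤ), a ≠ 0 ∧ (∀ j, i ≤ j → m j = 0) ∧
        V.valuation (u : F) = V.valuation (algebraMap E F a * mo (fun j => (t j : F)) m) := by
  classical
  have ht : ∀ j, (t j : F) ≠ 0 := fun j => (t j).ne_zero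
  constructor
  · intro hu
    let L : Subgroup Fˣ :=
      { carrier := {u | ∃ (a : E) (m : Fin q → ℤ), a ≠ 0 ∧ (∀ j, i ≤ j → m j = 0) ∧
          V.valuation (u : F) = V.valuation (algebraMap E F a * mo (fun j => (t j : F)) m)}
        mul_mem' := by
          rintro u w ⟨a, m, ha, hm, h⟩ ⟨b, m', hb, hm', h'⟩
          refine ⟨a * b, m + m', mul_ne_zero ha hb, fun j hj => ?_, ?_⟩
          · rw [Pi.add_apply, hm j hj, hm' j hj, add_zero]
          · rw [Units.val_mul, map_mul, h, h', ← map_mul, mo_add ht, map_mul (algebraMap E F)]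
            congr 1
            ring
        one_mem' := ⟨1, 0, one_ne_zero, fun j _ => rfl, by
          rw [Units.val_one, map_one, mo_zero, mul_one, map_one, map_one]⟩
        inv_mem' := by
          rintro u ⟨a, m, ha, hm, h⟩
          refine ⟨a⁻¹, -m, inv_ne_zero ha, fun j hj => ?_, ?_⟩
          · rw [Pi.neg_apply, hm j hj, neg_zero]
          · rw [Units.val_inv_eq_inv_val, map_inv₀, h, mo_neg, map_inv₀ (algebraMap E F),
              ← mul_inv, map_inv₀] }
    have h1 : HH E V ⊔ Subgroup.closure {z | ∃ j, j < i ∧ t j = z} ≤ L := by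
      refine sup_le ?_ ?_
      · rintro u ⟨a, ha, h⟩
        exact ⟨a, 0, ha, fun j _ => rfl, by rw [mo_zero, mul_one]; exact h⟩
      · rw [Subgroup.closure_le]
        rintro _ ⟨j, hj, rfl⟩
        refine ⟨1, Pi.single j 1, one_ne_zero, fun l hl => ?_, ?_⟩
        · rw [Pi.single_eq_of_ne]
          rintro rfl
          exact absurd hj (not_lt.2 hl)
        · rw [map_one, one_mul, mo_single]
    exact h1 hu
  · rintro ⟨a, m, ha, hm, h⟩
    set w : Fˣ := ∏ j, t j ^ m j with hw
    have hwv : (w : F) = mo (fun j => (t j : F)) m := by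
      rw [hw]
      unfold mo
      push_cast
      rfl
    have h1 : w ∈ Subgroup.closure {z | ∃ j, j < i ∧ t j = z} := by
      refine Subgroup.prod_mem _ fun j _ => ?_
      by_cases hj : j < i
      · refine Subgroup.zpow_mem _ ?_ _
        exact Subgroup.subset_closure ⟨j, hj, rfl⟩
      · rw [hm j (not_lt.1 hj), zpow_zero]
        exact Subgroup.one_mem _
    have h2 : u * w⁻¹ ∈ HH E V := by
      refine ⟨a, ha, ?_⟩
      rw [Units.val_mul, Units.val_inv_eq_inv_val, map_mul, h, hwv, map_mul, map_inv₀,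
        mul_assoc, mul_inv_cancel₀ ((map_ne_zero _).2 (mo_ne_zero ht m)), mul_one]
    have h3 : u = u * w⁻¹ * w := by rw [inv_mul_cancel_right]
    rw [h3]
    exact Subgroup.mul_mem_sup h2 h1

theorem sup_top {n : ℕ} {β : Fin n → F} (hβ : Orth (E := E) V β) (u : Fˣ) :
    u ∈ HH E V ⊔ Subgroup.closure (Set.range fun i => Units.mk0 (β i) (hβ.1 i)) := by
  obtain ⟨c, j, hc, hv⟩ := exists_class V hβ u.ne_zero
  have h1 : u * (Units.mk0 (β j) (hβ.1 j))⁻¹ ∈ HH E V := by
    refine ⟨c, hc, ?_⟩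
    rw [Units.val_mul, Units.val_inv_eq_inv_val, Units.val_mk0, map_mul, hv, map_mul, map_inv₀,
      mul_assoc, mul_inv_cancel₀ ((map_ne_zero _).2 (hβ.1 j)), mul_one]
  have h3 : u = u * (Units.mk0 (β j) (hβ.1 j))⁻¹ * Units.mk0 (β j) (hβ.1 j) := by
    rw [inv_mul_cancel_right]
  rw [h3]
  exact Subgroup.mul_mem_sup h1 (Subgroup.subset_closure ⟨j, rfl⟩)

end values

section residues

variable {E F : Type u} [Field E] [Field F] [Algebra E F] (V : ValuationSubring F)

/-- orthogonality from the linear independence of the residues -/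
theorem orth_res {N : Type} [Fintype N] (B : N → F) (hB : ∀ ν, V.valuation (B ν) = 1)
    (hli : LinearIndependent (kk E V) (fun ν => rs V (B ν))) (a : N → E) :
    (∀ ν, V.valuation (algebraMap E F (a ν)) ≤ V.valuation (∑ ν, algebraMap E F (a ν) * B ν)) ∧
    ((∃ ν, a ν ≠ 0) → ∃ ν, a ν ≠ 0 ∧
      V.valuation (∑ ν, algebraMap E F (a ν) * B ν) = V.valuation (algebraMap E F (a ν))) := by
  have hBV : ∀ ν, B ν ∈ V := fun ν => mem_of_val V (hB ν).le
  by_cases hall : ∀ ν, a ν = 0
  · refine ⟨fun ν => ?_, fun ⟨ν, hν⟩ => absurd (hall ν) hν⟩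
    rw [hall ν, map_zero, map_zero]
    exact zero_le
  push Not at hall
  obtain ⟨ν1, hν1⟩ := hall
  have : Nonempty N := ⟨ν1⟩
  obtain ⟨ν0, hν0⟩ := Finite.exists_max (fun ν => V.valuation (algebraMap E F (a ν)))
  have ha0 : a ν0 ≠ 0 := by
    intro h0
    have h1 := hν0 ν1
    rw [h0, map_zero, map_zero] at h1
    exact hν1 ((map_eq_zero _).1 ((map_eq_zero _).1 (le_antisymm h1 zero_le)))
  have hi0 : algebraMap E F (a ν0) ≠ 0 := (map_ne_zero _).2 ha0
  have hv0 : V.valuation (algebraMap E F (a ν0)) ≠ 0 := (map_ne_zero _).2 hi0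
  have he : ∀ ν, algebraMap E F (a ν / a ν0) ∈ V := by
    intro ν
    apply mem_of_val
    rw [map_div₀, map_div₀]
    exact (div_le_one₀ (zero_lt_iff.2 hv0)).2 (hν0 ν)
  set S := ∑ ν, algebraMap E F (a ν / a ν0) * B ν with hS
  have hSV : S ∈ V := sum_mem fun ν _ => V.mul_mem _ _ (he ν) (hBV ν)
  have hrS : rs V S ≠ 0 := by
    rw [hS, rs_sum V _ _ fun ν _ => V.mul_mem _ _ (he ν) (hBV ν)]
    intro h0
    have h1 : ∑ ν, (⟨rs V (algebraMap E F (a ν / a ν0)), mem_kk E V (he ν)⟩ : kk E V) •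
        rs V (B ν) = 0 := by
      rw [← h0]
      exact Finset.sum_congr rfl fun ν _ => (rs_mul V (he ν) (hBV ν)).symm
    have h2 := Fintype.linearIndependent_iff.1 hli _ h1 ν0
    have h3 : rs V (algebraMap E F (a ν0 / a ν0)) = 0 := congrArg Subtype.val h2
    rw [div_self ha0, map_one, rs_one] at h3
    exact one_ne_zero h3
  have hvS : V.valuation S = 1 := val_one_of_rs V hSV hrS
  have htot : ∑ ν, algebraMap E F (a ν) * B ν = algebraMap E F (a ν0) * S := by
    rw [hS, Finset.mul_sum]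
    refine Finset.sum_congr rfl fun ν _ => ?_
    rw [map_div₀]
    field_simp
  have hvt : V.valuation (∑ ν, algebraMap E F (a ν) * B ν) = V.valuation (algebraMap E F (a ν0)) := by
    rw [htot, map_mul, hvS, mul_one]
  exact ⟨fun ν => by rw [hvt]; exact hν0 ν, fun _ => ⟨ν0, ha0, hvt⟩⟩

/-- orthogonality from different values -/
theorem orth_val {M : Type} [Fintype M] (S : M → F)
    (hS : ∀ μ μ', S μ ≠ 0 → S μ' ≠ 0 → V.valuation (S μ) = V.valuation (S μ') → μ = μ') (μ : M) :
    V.valuation (S μ) ≤ V.valuation (∑ μ, S μ) := by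
  classical
  have : Nonempty M := ⟨μ⟩
  obtain ⟨μ0, hμ0⟩ := Finite.exists_max (fun μ => V.valuation (S μ))
  by_cases h0 : S μ0 = 0
  · have h1 := hμ0 μ
    rw [h0, map_zero] at h1
    exact h1.trans zero_le
  refine (hμ0 μ).trans ?_
  have hlt : ∀ μ' ∈ Finset.univ.erase μ0, V.valuation (S μ') < V.valuation (S μ0) := by
    intro μ' hμ'
    refine lt_of_le_of_ne (hμ0 μ') fun h => ?_
    by_cases h1 : S μ' = 0
    · rw [h1, map_zero] at h
      exact h0 ((map_eq_zero _).1 h.symm)
    · exact (Finset.mem_erase.1 hμ').1 (hS _ _ h1 h0 h)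
  have h2 := V.valuation.map_sum_lt (g := V.valuation (S μ0)) ((map_ne_zero _).2 h0) hlt
  rw [← Finset.add_sum_erase _ _ (Finset.mem_univ μ0), V.valuation.map_add_eq_of_lt_left h2]

/-- the number of elements of the same value class in an orthogonal family -/
theorem class_card {n : ℕ} {β : Fin n → F} (hβ : Orth (E := E) V β) (T : F) (hT : T ≠ 0)
    {J : Type} [Fintype J] (i : J → Fin n) (hi : Function.Injective i) (d : J → E)
    (hd : ∀ j, V.valuation (algebraMap E F (d j) * β (i j)) = V.valuation T) :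
    LinearIndependent (kk E V) (fun j => rs V (algebraMap E F (d j) * β (i j) / T)) := by
  classical
  have hT0 : V.valuation T ≠ 0 := (map_ne_zero _).2 hT
  have hv1 : ∀ j, V.valuation (algebraMap E F (d j) * β (i j) / T) = 1 := fun j => by
    rw [map_div₀, hd, div_self hT0]
  have hV1 : ∀ j, algebraMap E F (d j) * β (i j) / T ∈ V := fun j => mem_of_val V (hv1 j).le
  rw [Fintype.linearIndependent_iff]
  intro g hg j
  -- lift the coefficients
  set c : J → E := fun j => sc E V (g j) * d j with hc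
  have h1 : rs V (∑ j, algebraMap E F (c j) * β (i j) / T) = 0 := by
    rw [← hg]
    have h2 : ∀ j ∈ Finset.univ, algebraMap E F (c j) * β (i j) / T ∈ V := fun j _ => by
      have : algebraMap E F (c j) * β (i j) / T =
          algebraMap E F (sc E V (g j)) * (algebraMap E F (d j) * β (i j) / T) := by
        rw [hc]; simp only [map_mul]; ring
      rw [this]
      exact V.mul_mem _ _ (sc_spec E V _).1 (hV1 j)
    rw [rs_sum V _ _ h2]
    refine Finset.sum_congr rfl fun j _ => ?_
    have : algebraMap E F (c j) * β (i j) / T =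
        algebraMap E F (sc E V (g j)) * (algebraMap E F (d j) * β (i j) / T) := by
      rw [hc]; simp only [map_mul]; ring
    rw [this, rs_mul V (sc_spec E V _).1 (hV1 j), (sc_spec E V _).2]
    rfl
  have hSV : ∑ j, algebraMap E F (c j) * β (i j) / T ∈ V := sum_mem fun j _ => by
    have : algebraMap E F (c j) * β (i j) / T =
        algebraMap E F (sc E V (g j)) * (algebraMap E F (d j) * β (i j) / T) := by
      rw [hc]; simp only [map_mul]; ring
    rw [this]
    exact V.mul_mem _ _ (sc_spec E V _).1 (hV1 j)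
  rw [rs_eq_zero V hSV, ← Finset.sum_div, map_div₀] at h1
  -- orthogonality
  set C : Fin n → E := fun l => ∑ j, if i j = l then c j else 0 with hC
  have hCi : ∀ j, C (i j) = c j := by
    intro j
    rw [hC]
    simp only
    rw [Finset.sum_eq_single j]
    · rw [if_pos rfl]
    · intro j' _ hj'
      rw [if_neg fun h => hj' (hi h)]
    · intro h; exact absurd (Finset.mem_univ _) h
  have hsum : ∑ l, algebraMap E F (C l) * β l = ∑ j, algebraMap E F (c j) * β (i j) := by
    have h3 : ∀ l, algebraMap E F (C l) * β l =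
        ∑ j, if i j = l then algebraMap E F (c j) * β (i j) else 0 := by
      intro l
      rw [hC]
      simp only
      rw [map_sum, Finset.sum_mul]
      refine Finset.sum_congr rfl fun j _ => ?_
      split_ifs with h
      · rw [h]
      · rw [map_zero, zero_mul]
    rw [Finset.sum_congr rfl fun l _ => h3 l, Finset.sum_comm]
    refine Finset.sum_congr rfl fun j _ => ?_
    rw [Finset.sum_ite_eq]
    simp
  have h4 := hβ.2.2 C (i j)
  rw [hsum, hCi] at h4
  have h5 : V.valuation (algebraMap E F (c j) * β (i j)) < V.valuation T := by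
    refine lt_of_le_of_lt h4 ?_
    exact (div_lt_one₀ (zero_lt_iff.2 hT0)).1 h1
  have h6 : V.valuation (algebraMap E F (sc E V (g j))) < 1 := by
    have : V.valuation (algebraMap E F (c j) * β (i j)) =
        V.valuation (algebraMap E F (sc E V (g j))) * V.valuation T := by
      rw [← hd j, ← map_mul, hc]
      simp only [map_mul]
      rw [mul_assoc]
    rw [this] at h5
    by_contra h7
    rw [not_lt] at h7
    have : V.valuation T ≤ V.valuation (algebraMap E F (sc E V (g j))) * V.valuation T :=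
      le_mul_of_one_le_left zero_le h7
    exact absurd h5 (not_lt.2 this)
  rw [← rs_eq_zero V (sc_spec E V _).1, (sc_spec E V _).2] at h6
  exact Subtype.ext h6

end residues

theorem str (h1 : S_val.{u}) (h2 : S_res.{u}) : S_str.{u} := by
  intro E F _ _ _ V n β hβ
  classical
  have hβ0 := hβ.1
  -- values
  let t : Fin n → Fˣ := fun i => Units.mk0 (β i) (hβ.1 i)
  obtain ⟨ee, he0, hrel, hmin, huniq⟩ := h1 (HH E V) n t (torsion V hβ)
  set T : ((i : Fin n) → Fin (ee i)) → F := fun μ => ∏ i, β i ^ (μ i : ℕ) with hT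
  have hT0 : ∀ μ, T μ ≠ 0 := fun μ =>
    Finset.prod_ne_zero_iff.2 fun i _ => pow_ne_zero _ (hβ0 i)
  have hTv : ∀ μ, V.valuation (T μ) ≠ 0 := fun μ => (map_ne_zero _).2 (hT0 μ)
  have hTu : ∀ μ : (i : Fin n) → Fin (ee i), ((∏ i, t i ^ (μ i : ℕ) : Fˣ) : F) = T μ := fun μ => by
    rw [Units.coe_prod]
    exact Finset.prod_congr rfl fun i _ => Units.val_pow_eq_pow_val _ _
  have hT1 : ∀ z : F, z ≠ 0 → ∃ μ, ∃ a : E, V.valuation (algebraMap E F a * z) =
      V.valuation (T μ) := by
    intro z hz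
    obtain ⟨μ, ⟨a, ha, hv⟩, -⟩ := huniq (Units.mk0 z hz) (sup_top V hβ _)
    rw [Units.val_mul, Units.val_inv_eq_inv_val, hTu, Units.val_mk0] at hv
    have hva : V.valuation (algebraMap E F a) ≠ 0 := (map_ne_zero _).2 ((map_ne_zero _).2 ha)
    refine ⟨μ, a⁻¹, ?_⟩
    rw [map_mul, map_inv₀] at hv
    rw [map_mul, map_inv₀, map_inv₀, ← hv, mul_inv, inv_inv, mul_assoc, mul_comm _ (V.valuation z),
      ← mul_assoc, inv_mul_cancel₀ ((map_ne_zero _).2 hz), one_mul]
  have hT2 : ∀ μ μ' (a a' : E), a ≠ 0 → a' ≠ 0 → V.valuation (algebraMap E F a * T μ) =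
      V.valuation (algebraMap E F a' * T μ') → μ = μ' := by
    intro μ μ' a a' ha ha' hv
    obtain ⟨μ0, -, hu⟩ := huniq (∏ i, t i ^ (μ i : ℕ)) (sup_top V hβ _)
    have g1 := hu μ (by
      show (∏ i, t i ^ (μ i : ℕ)) * (∏ i, t i ^ (μ i : ℕ))⁻¹ ∈ HH E V
      rw [mul_inv_cancel]
      exact Subgroup.one_mem _)
    have g2 := hu μ' (by
      show (∏ i, t i ^ (μ i : ℕ)) * (∏ i, t i ^ (μ' i : ℕ))⁻¹ ∈ HH E V
      refine ⟨a' / a, div_ne_zero ha' ha, ?_⟩
      have hva : V.valuation (algebraMap E F a) ≠ 0 := (map_ne_zero _).2 ((map_ne_zero _).2 ha)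
      rw [Units.val_mul, Units.val_inv_eq_inv_val, hTu, hTu, map_mul, map_inv₀, map_div₀,
        map_div₀, eq_div_iff hva]
      rw [map_mul, map_mul] at hv
      calc V.valuation (T μ) * (V.valuation (T μ'))⁻¹ * V.valuation (algebraMap E F a)
          = (V.valuation (algebraMap E F a) * V.valuation (T μ)) * (V.valuation (T μ'))⁻¹ := by
            rw [mul_comm, ← mul_assoc]
        _ = V.valuation (algebraMap E F a') := by
            rw [hv, mul_assoc, mul_inv_cancel₀ (hTv μ'), mul_one])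
    rw [g1, g2]
  -- residues
  let J : Type := {j : Fin n // ∃ d : E, V.valuation (algebraMap E F d * β j) = 1}
  set r := Fintype.card J with hr
  let e : Fin r ≃ J := (Fintype.equivFin J).symm
  choose dd hdd using fun l : Fin r => (e l).2
  set b : Fin r → F := fun l => algebraMap E F (dd l) * β (e l).1 with hb
  have hb1 : ∀ l, V.valuation (b l) = 1 := hdd
  have hbV : ∀ l, b l ∈ V := fun l => mem_of_val V (hb1 l).le
  have hdd0 : ∀ l, dd l ≠ 0 := by
    intro l h
    have h3 := hdd l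
    rw [h, map_zero, zero_mul, map_zero] at h3
    exact zero_ne_one h3
  have hspan : ∀ x : ResidueField V,
      x ∈ Submodule.span (kk E V) (Set.range fun l => rs V (b l)) := by
    intro x
    obtain ⟨⟨z, hz⟩, rfl⟩ := residue_surjective x
    rw [← rs_mem V hz]
    obtain ⟨c, hc⟩ := hβ.2.1 z
    have hle : ∀ i, V.valuation (algebraMap E F (c i) * β i) ≤ 1 := fun i =>
      (hβ.2.2 c i).trans (by rw [← hc]; exact val_le V hz)
    rw [hc, rs_sum V _ _ fun i _ => mem_of_val V (hle i)]
    refine Submodule.sum_mem _ fun i _ => ?_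
    by_cases hi : V.valuation (algebraMap E F (c i) * β i) = 1
    · obtain ⟨l, hl⟩ : ∃ l, (e l).1 = i :=
        ⟨e.symm ⟨i, c i, hi⟩, by rw [Equiv.apply_symm_apply]⟩
      have hd0 : algebraMap E F (dd l) ≠ 0 := (map_ne_zero _).2 (hdd0 l)
      have h3 : algebraMap E F (c i) * β i = algebraMap E F (c i / dd l) * b l := by
        rw [hb]
        simp only
        rw [hl, map_div₀]
        field_simp
      have h4 : V.valuation (algebraMap E F (c i / dd l)) = 1 := by
        rw [h3, map_mul, hb1, mul_one] at hi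
        exact hi
      rw [h3, rs_mul V (mem_of_val V h4.le) (hbV l)]
      exact Submodule.smul_mem _ (⟨_, mem_kk E V (mem_of_val V h4.le)⟩ : kk E V)
        (Submodule.subset_span ⟨l, rfl⟩)
    · rw [(rs_eq_zero V (mem_of_val V (hle i))).2 (lt_of_le_of_ne (hle i) hi)]
      exact Submodule.zero_mem _
  have hfin : Module.Finite (kk E V) (ResidueField V) :=
    ⟨⟨Finset.univ.image fun l => rs V (b l), by
      rw [Finset.coe_image, Finset.coe_univ, Set.image_univ, eq_top_iff]
      exact fun x _ => hspan x⟩⟩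
  have halg : ∀ l, IsAlgebraic (kk E V) (rs V (b l)) := fun l =>
    Algebra.IsAlgebraic.isAlgebraic _
  obtain ⟨ff, hf0, hres, hli, hfld⟩ := h2 (k := kk E V) (κ := ResidueField V) r
    (fun l => rs V (b l)) halg
  set B : ((j : Fin r) → Fin (ff j)) → F := fun ν => ∏ j, b j ^ (ν j : ℕ) with hB
  have hB1 : ∀ ν, V.valuation (B ν) = 1 := fun ν => by
    rw [hB]
    simp only
    rw [map_prod]
    exact Finset.prod_eq_one fun j _ => by rw [map_pow, hb1, one_pow]
  have hBV : ∀ ν, B ν ∈ V := fun ν => mem_of_val V (hB1 ν).le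
  have rsB : ∀ ν, rs V (B ν) = ∏ j, rs V (b j) ^ (ν j : ℕ) := fun ν => by
    rw [hB]
    simp only
    rw [rs_prod V _ _ fun j _ => pow_mem (hbV j) _]
    exact Finset.prod_congr rfl fun j _ => rs_pow V (hbV j) _
  have hli' : LinearIndependent (kk E V) (fun ν => rs V (B ν)) := by
    have e1 : (fun ν => rs V (B ν)) = fun ν : (j : Fin r) → Fin (ff j) =>
        ∏ j, rs V (b j) ^ (ν j : ℕ) := funext rsB
    rw [e1]
    exact hli
  have horth : ∀ (c : ((i : Fin n) → Fin (ee i)) × ((j : Fin r) → Fin (ff j)) → E) (p),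
      V.valuation (algebraMap E F (c p) * (T p.1 * B p.2)) ≤
        V.valuation (∑ p, algebraMap E F (c p) * (T p.1 * B p.2)) := by
    intro c p
    have e1 : ∑ p, algebraMap E F (c p) * (T p.1 * B p.2) =
        ∑ μ, T μ * ∑ ν, algebraMap E F (c (μ, ν)) * B ν := by
      rw [Fintype.sum_prod_type]
      refine Finset.sum_congr rfl fun μ _ => ?_
      rw [Finset.mul_sum]
      exact Finset.sum_congr rfl fun ν _ => by ring
    have h3 : V.valuation (algebraMap E F (c p) * (T p.1 * B p.2)) ≤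
        V.valuation (T p.1 * ∑ ν, algebraMap E F (c (p.1, ν)) * B ν) := by
      rw [map_mul, map_mul, hB1, mul_one, map_mul, mul_comm]
      exact mul_le_mul_right ((orth_res V B hB1 hli' fun ν => c (p.1, ν)).1 p.2) _
    rw [e1]
    refine h3.trans ?_
    refine orth_val V (fun μ => T μ * ∑ ν, algebraMap E F (c (μ, ν)) * B ν) ?_ p.1
    intro μ μ' hμ hμ' hv
    have key : ∀ μ, T μ * ∑ ν, algebraMap E F (c (μ, ν)) * B ν ≠ 0 → ∃ a : E, a ≠ 0 ∧
        V.valuation (T μ * ∑ ν, algebraMap E F (c (μ, ν)) * B ν) =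
          V.valuation (algebraMap E F a * T μ) := by
      intro μ hμ
      obtain ⟨ν, hν, hv⟩ := (orth_res V B hB1 hli' fun ν => c (μ, ν)).2 (by
        by_contra hcon
        push Not at hcon
        apply hμ
        rw [Finset.sum_eq_zero, mul_zero]
        intro ν _
        rw [hcon ν, map_zero, zero_mul])
      exact ⟨c (μ, ν), hν, by rw [map_mul, hv, map_mul, mul_comm]⟩
    obtain ⟨a, ha, hva⟩ := key μ hμ
    obtain ⟨a', ha', hva'⟩ := key μ' hμ'
    exact hT2 μ μ' a a' ha ha' (by rw [← hva, ← hva']; exact hv)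
  -- dimensions
  have hκ : Module.finrank (kk E V) (ResidueField V) ≤
      Fintype.card ((j : Fin r) → Fin (ff j)) := by
    have hs : Submodule.span (kk E V) (Set.range fun ν => rs V (B ν)) = ⊤ := by
      rw [eq_top_iff]
      intro w _
      have hw : w ∈ IntermediateField.adjoin (kk E V)
          {z | ∃ l : Fin r, (l : ℕ) < r ∧ rs V (b l) = z} := by
        have h3 : Submodule.span (kk E V) (Set.range fun l => rs V (b l)) ≤
            Subalgebra.toSubmodule (IntermediateField.adjoin (kk E V)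
              {z | ∃ l : Fin r, (l : ℕ) < r ∧ rs V (b l) = z}).toSubalgebra := by
          rw [Submodule.span_le]
          rintro _ ⟨l, rfl⟩
          exact IntermediateField.subset_adjoin _ _ ⟨l, l.2, rfl⟩
        exact h3 (hspan w)
      obtain ⟨c, -, hc⟩ := hfld r w hw
      rw [hc]
      refine Submodule.sum_mem _ fun ν _ => Submodule.smul_mem _ _ ?_
      exact Submodule.subset_span ⟨ν, rsB ν⟩
    rw [← finrank_top (kk E V) (ResidueField V), ← hs]
    exact finrank_range_le_card _
  have hn : n ≤ Fintype.card (((i : Fin n) → Fin (ee i)) × ((j : Fin r) → Fin (ff j))) := by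
    choose μc d hd using fun j : Fin n => hT1 (β j) (hβ0 j)
    rw [Fintype.card_prod]
    have h3 : ∀ μ, (Finset.univ.filter fun j => μc j = μ).card ≤
        Fintype.card ((j : Fin r) → Fin (ff j)) := by
      intro μ
      have h4 := class_card V hβ (T μ) (hT0 μ) (J := {j // μc j = μ}) (fun j => j.1)
        Subtype.val_injective (fun j => d j.1) (fun j => by rw [hd, j.2])
      have h5 := h4.fintype_card_le_finrank
      rw [Fintype.card_subtype] at h5
      exact h5.trans hκ
    calc n = (Finset.univ : Finset (Fin n)).card := by rw [Finset.card_univ, Fintype.card_fin]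
      _ = ∑ μ, (Finset.univ.filter fun j => μc j = μ).card :=
          Finset.card_eq_sum_card_fiberwise fun j _ => Finset.mem_univ _
      _ ≤ ∑ μ : (i : Fin n) → Fin (ee i), Fintype.card ((j : Fin r) → Fin (ff j)) :=
          Finset.sum_le_sum fun μ _ => h3 μ
      _ = _ := by rw [Finset.sum_const, Finset.card_univ, smul_eq_mul]
  have hβs : Submodule.span E (Set.range β) = ⊤ := by
    rw [eq_top_iff]
    intro z _
    obtain ⟨c, hc⟩ := hβ.2.1 z
    rw [hc]
    refine Submodule.sum_mem _ fun i _ => ?_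
    rw [← Algebra.smul_def]
    exact Submodule.smul_mem _ _ (Submodule.subset_span ⟨i, rfl⟩)
  have hEF : Module.Finite E F :=
    ⟨⟨Finset.univ.image β, by rw [Finset.coe_image, Finset.coe_univ, Set.image_univ, hβs]⟩⟩
  have hfr : Module.finrank E F ≤ n := by
    rw [← finrank_top E F, ← hβs]
    have := finrank_range_le_card (R := E) β
    rwa [Fintype.card_fin] at this
  have hliP : LinearIndependent E
      (fun p : ((i : Fin n) → Fin (ee i)) × ((j : Fin r) → Fin (ff j)) => T p.1 * B p.2) := by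
    rw [Fintype.linearIndependent_iff]
    intro g hg p
    have h3 := horth g p
    have h4 : ∑ p, algebraMap E F (g p) * (T p.1 * B p.2) = 0 := by
      rw [← hg]
      exact Finset.sum_congr rfl fun p _ => (Algebra.smul_def _ _).symm
    rw [h4, map_zero] at h3
    have h5 := (map_eq_zero _).1 (le_antisymm h3 zero_le)
    rcases mul_eq_zero.1 h5 with h6 | h6
    · exact (map_eq_zero _).1 h6
    · rcases mul_eq_zero.1 h6 with h7 | h7
      · exact absurd h7 (hT0 _)
      · exfalso
        have := hB1 p.2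
        rw [h7, map_zero] at this
        exact zero_ne_one this
  have hcard : Fintype.card (((i : Fin n) → Fin (ee i)) × ((j : Fin r) → Fin (ff j))) =
      Module.finrank E F :=
    le_antisymm hliP.fintype_card_le_finrank (hfr.trans hn)
  have hspanP := hliP.span_eq_top_of_card_eq_finrank' hcard
  refine ⟨n, r, β, ee, b, ff, ⟨hβ0, he0, hb1, hf0, ?_, ?_, ?_, ?_, horth, ?_⟩⟩
  · -- rel
    intro i
    obtain ⟨a, m, ha, hm, hv⟩ := (mem_sup_iff V t i _).1 (hrel i)
    exact ⟨a, m, ha, hm, by rw [Units.val_pow_eq_pow_val] at hv; exact hv⟩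
  · -- min
    intro i k a m ha hm hv
    refine hmin i k ((mem_sup_iff V t i _).2 ⟨a, m, ha, hm, ?_⟩)
    rw [Units.val_zpow_eq_zpow_val]
    exact hv
  · -- res
    intro j
    obtain ⟨hh, hsup, heq⟩ := hres j
    have hal := fun l => aeval_lift E V (hh l) b hbV
    have hm1 : ∀ l ∈ (Finset.univ : Finset (Fin (ff j))),
        MvPolynomial.aeval b (lift E V (hh l)) * b j ^ (l : ℕ) ∈ V := fun l _ =>
      V.mul_mem _ _ (hal l).1 (pow_mem (hbV j) _)
    refine ⟨fun l => lift E V (hh l), fun l => lift_supported E V (hsup l), fun l m => ?_, ?_⟩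
    · rw [coeff_lift]
      exact (sc_spec E V _).1
    · rw [← rs_eq_zero V (V.add_mem _ _ (pow_mem (hbV j) _) (sum_mem hm1)),
        rs_add V (pow_mem (hbV j) _) (sum_mem hm1), rs_sum V _ _ hm1, rs_pow V (hbV j), ← heq]
      congr 1
      refine Finset.sum_congr rfl fun l _ => ?_
      rw [rs_mul V (hal l).1 (pow_mem (hbV j) _), (hal l).2, rs_pow V (hbV j)]
  · -- fld
    intro j w hw
    set M := IntermediateField.adjoin (kk E V)
      {z | ∃ l : Fin r, (l : ℕ) < j ∧ rs V (b l) = z} with hM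
    have hcl : ∀ a ∈ Subring.closure
        (((V.comap (algebraMap E F)).toSubring.map (algebraMap E F) : Set F) ∪
          {z | ∃ l : Fin r, (l : ℕ) < j ∧ b l = z}), a ∈ V ∧ rs V a ∈ M := by
      intro a ha
      induction ha using Subring.closure_induction with
      | mem x hx =>
        rcases hx with ⟨y, hy, rfl⟩ | ⟨l, hl, rfl⟩
        · have hy' : algebraMap E F y ∈ V := hy
          refine ⟨hy', ?_⟩
          exact M.algebraMap_mem (⟨_, mem_kk E V hy'⟩ : kk E V)
        · exact ⟨hbV l, IntermediateField.subset_adjoin _ _ ⟨l, hl, rfl⟩⟩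
      | zero => exact ⟨V.zero_mem, by rw [rs_zero]; exact M.zero_mem⟩
      | one => exact ⟨V.one_mem, by rw [rs_one]; exact M.one_mem⟩
      | add x y _ _ hx hy =>
        exact ⟨V.add_mem _ _ hx.1 hy.1, by rw [rs_add V hx.1 hy.1]; exact M.add_mem hx.2 hy.2⟩
      | neg x _ hx => exact ⟨V.neg_mem _ hx.1, by rw [rs_neg V hx.1]; exact M.neg_mem hx.2⟩
      | mul x y _ _ hx hy =>
        exact ⟨V.mul_mem _ _ hx.1 hy.1, by rw [rs_mul V hx.1 hy.1]; exact M.mul_mem hx.2 hy.2⟩
    obtain ⟨a, ha, b', hb', hb0, hbA, rfl⟩ := mem_lo.1 hw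
    obtain ⟨haV, haM⟩ := hcl a ha
    obtain ⟨hbV', hbM⟩ := hcl b' hb'
    have hbA' : b'⁻¹ ∈ V := hbA
    have hwV : a * b'⁻¹ ∈ V := V.mul_mem _ _ haV hbA'
    have hwM : rs V (a * b'⁻¹) ∈ M := by
      rw [rs_mul V haV hbA', rs_inv V hb0 hbV' hbA']
      exact M.mul_mem haM (M.inv_mem hbM)
    obtain ⟨c, hc1, hc2⟩ := hfld j _ hwM
    have hm1 : ∀ ν ∈ (Finset.univ : Finset ((i : Fin r) → Fin (ff i))),
        algebraMap E F (sc E V (c ν)) * B ν ∈ V := fun ν _ =>
      V.mul_mem _ _ (sc_spec E V _).1 (hBV ν)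
    refine ⟨fun ν => sc E V (c ν), fun ν => (sc_spec E V _).1, fun ν hν => ?_, ?_⟩
    · refine hc1 ν fun h0 => hν ?_
      show sc E V (c ν) = 0
      rw [h0, sc_zero]
    · show V.valuation (a * b'⁻¹ - ∑ ν, algebraMap E F (sc E V (c ν)) * B ν) < 1
      rw [← rs_eq_zero V (sub_mem hwV (sum_mem hm1)), rs_sub V hwV (sum_mem hm1),
        rs_sum V _ _ hm1, hc2, sub_eq_zero]
      refine Finset.sum_congr rfl fun ν _ => ?_
      rw [rs_mul V (sc_spec E V _).1 (hBV ν), (sc_spec E V _).2, rsB]
      rfl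
  · -- span
    intro z
    have hz : z ∈ Submodule.span E (Set.range fun p :
        ((i : Fin n) → Fin (ee i)) × ((j : Fin r) → Fin (ff j)) => T p.1 * B p.2) := by
      rw [hspanP]
      trivial
    obtain ⟨c, hc⟩ := (Submodule.mem_span_range_iff_exists_fun E).1 hz
    refine ⟨c, ?_⟩
    rw [← hc]
    exact Finset.sum_congr rfl fun p _ => Algebra.smul_def _ _

end Pool.Agent.Y925.DT
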